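import Pool.Agent.helper98.ILF.Poly
import Pool.Agent.helper54.V3.SpecT

/-!
# Project ex: (MP_70a088_an, MP_af9036_an): uniformly thin pull-backs and invariant line fields

Paper: /team-store/EX_paper_helper44.md. MAIN THEOREM (`FIN_stmt`). Let `n ≥ 3`, `δ < 1`, `f z = z ^ n + c`. Suppose that for every `r > 0`
there are a univalent `φ` on the unit disc, `φ 0 = 0`, `V = φ (disc) ⊆ ball 0 r`, and a set `U ⊆ V` which contains the components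
containing `0` of all `f^{-l}(V)`, `l ≥ 1`, such that every point of `U` has pseudo-hyperbolic distance (in `V`) at most `δ` from
`V \ U`, and the critical orbit visits `V` with bounded gaps. Then `f` has no invariant line field on its Julia set.

RULES. File `Pool/Agent/<seat>/EX/XX.lean`, `import Pool.Agent.helper44.EX.Spec` (and any proved module you want to use),
`set_option autoImplicit false`, `open Complex Metric Set Filter Topology MeasureTheory Pool.Agent.helper98.ILF`,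
`noncomputable section`, `namespace EX`, `theorem XX (h : YY_stmt) ... : XX_stmt`. Any other statement of this file and of
`V3` (`V3.KO0_stmt`, `V3.KO1_stmt`, `V3.KO3_stmt`, all proved) may be a hypothesis (no circles). Auxiliary lemmas prefixed `XX_`.
No `sorry`, no straight double quotes in comments.

Notation: `f = ff n c`, `D = ball (0 : ℂ) 1`, `ff n c = fun z => z ^ n + c` by `rfl`.
-/

set_option autoImplicit false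

open Complex Metric Set Filter Topology MeasureTheory Pool.Agent.helper98.ILF

noncomputable section

namespace EX

/-! ## Definitions -/

/-- the polynomial `z ^ n + c`. -/
def ff (n : ℕ) (c z : ℂ) : ℂ := z ^ n + c

/-- the Moebius map of the disc with `0 ↦ a`. -/
def tau (a z : ℂ) : ℂ := (z + a) / (1 + (starRingEnd ℂ) a * z)

/-- the pseudo-hyperbolic distance of the unit disc. -/
def rho (a b : ℂ) : ℝ := ‖a - b‖ / ‖1 - (starRingEnd ℂ) a * b‖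

/-- `log (LL (rho a b))` is the hyperbolic distance. -/
def LL (x : ℝ) : ℝ := (1 + x) / (1 - x)

/-- a holomorphic self map of the disc whose omitted values are `δ`-dense. -/
structure Thin (δ : ℝ) (θ : ℂ → ℂ) : Prop where
  hol : DifferentiableOn ℂ θ (ball 0 1)
  mt : MapsTo θ (ball 0 1) (ball 0 1)
  om : ∀ z ∈ ball (0 : ℂ) 1, ∃ b ∈ ball (0 : ℂ) 1, b ∉ θ '' ball 0 1 ∧ rho (θ z) b ≤ δ

/-- the data of the theorem, `V = φ '' ball 0 1`. -/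
structure VD (n : ℕ) (c : ℂ) (δ : ℝ) (φ : ℂ → ℂ) (U : Set ℂ) : Prop where
  hol : DifferentiableOn ℂ φ (ball 0 1)
  inj : InjOn φ (ball 0 1)
  zero : φ 0 = 0
  sub : U ⊆ φ '' ball 0 1
  comp : ∀ l : ℕ, 1 ≤ l → connectedComponentIn {z | (ff n c)^[l] z ∈ φ '' ball 0 1} 0 ⊆ U
  thin : ∀ a ∈ ball (0 : ℂ) 1, φ a ∈ U → ∃ b ∈ ball (0 : ℂ) 1, φ b ∉ U ∧ rho a b ≤ δ

/-- the hypotheses of the theorem for one domain in `ball 0 r`. -/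
def Hyp (n : ℕ) (c : ℂ) (δ r : ℝ) : Prop := ∃ (φ : ℂ → ℂ) (U : Set ℂ) (N : ℕ), VD n c δ φ U ∧
  φ '' ball 0 1 ⊆ ball 0 r ∧ ∀ i : ℕ, ∃ s ∈ Finset.Icc 1 N, (ff n c)^[i + s] 0 ∈ φ '' ball 0 1

/-- the property of branches of the `n`-th root needed below. -/
def RtP (n : ℕ) (g : ℝ) : Prop := ∀ (R : ℝ) (z₀ w : ℂ), 0 < R → R ≤ ‖z₀‖ → z₀ ∈ ball (0 : ℂ) 1 →
  w ^ n = -z₀ → ∃ b : ℂ → ℂ, DifferentiableOn ℂ b (ball 0 R) ∧ MapsTo b (ball 0 R) (ball 0 1) ∧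
    b 0 = w ∧ ∀ z ∈ ball (0 : ℂ) R, tau z₀ (b z ^ n) = z ∧ g * (1 - ‖z‖ ^ 2) ≤ 1 - rho w (b z) ^ 2

/-- the numbers of the induction. -/
structure PR (n : ℕ) (δ g R1 R R2 : ℝ) : Prop where
  g0 : 0 < g
  gn : g * n ≤ 1
  r0 : 0 < R1
  r1 : R1 < R
  r2 : R < 1
  r3 : 0 < R2
  r4 : R2 < 1
  r5 : 1 - R2 ^ 2 ≤ g * (1 - R ^ 2)
  con : ∀ θ : ℂ → ℂ, Thin δ θ → ∀ z ∈ ball (0 : ℂ) 1, ∀ w ∈ ball (0 : ℂ) 1,
    rho z w ≤ R2 → rho (θ z) (θ w) ≤ R1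
  root : RtP n g

/-- after the time `T` there is no univalent pull-back to `x` of a disc with `0` at bounded distance. -/
def Star (n : ℕ) (c x : ℂ) (q : ℝ) (T : ℕ) : Prop := ∀ t : ℕ, T ≤ t → ∀ (Φ g : ℂ → ℂ) (b : ℂ),
  DifferentiableOn ℂ Φ (ball 0 1) → InjOn Φ (ball 0 1) → DifferentiableOn ℂ g (ball 0 1) →
  (∀ z ∈ ball (0 : ℂ) 1, (ff n c)^[t] (g z) = Φ z) → g 0 = x → ‖b‖ ≤ q → Φ b ≠ 0

/-! ## Part H: hyperbolic geometry of the disc -/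

/-- MOB (short/medium): Moebius maps.
PROOF. `‖conj a * z‖ < 1`, so the denominator is not `0`. `‖1 + conj a z‖² - ‖z + a‖² = (1 - ‖a‖²)(1 - ‖z‖²)` (`Complex.sq_norm`, `normSq`; expand), so `‖tau a z‖ < 1` and the last formula.
`tau (-a) (tau a z) = z` by `field_simp`: numerator `(z + a) - a (1 + conj a z) = z (1 - a conj a)`, denominator `(1 + conj a z) - conj a (z + a) = 1 - conj a a`. `tau (-a) b = (b - a)/(1 - conj a b)`. Surjectivity: `tau a (tau (-a) z) = z` (the same formula for `-a`). -/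
def MOB_stmt : Prop := ∀ a ∈ ball (0 : ℂ) 1,
  (∀ z ∈ ball (0 : ℂ) 1, 1 + (starRingEnd ℂ) a * z ≠ 0) ∧
  DifferentiableOn ℂ (tau a) (ball 0 1) ∧ MapsTo (tau a) (ball 0 1) (ball 0 1) ∧
  InjOn (tau a) (ball 0 1) ∧ tau a 0 = a ∧ tau a (-a) = 0 ∧
  (∀ z ∈ ball (0 : ℂ) 1, tau (-a) (tau a z) = z ∧ tau a (tau (-a) z) = z) ∧
  (∀ b ∈ ball (0 : ℂ) 1, ‖tau (-a) b‖ = rho a b) ∧
  (∀ z ∈ ball (0 : ℂ) 1,
    1 - ‖tau a z‖ ^ 2 = (1 - ‖a‖ ^ 2) * (1 - ‖z‖ ^ 2) / ‖1 + (starRingEnd ℂ) a * z‖ ^ 2)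

/-- RHO (medium): the pseudo-hyperbolic distance. uses: MOB.
PROOF. `rho a b = ‖tau (-a) b‖`, so `1 - rho² = (1-‖a‖²)(1-‖b‖²)/‖1 - conj a b‖²` (MOB), symmetric. Invariance: `tau c a - tau c b = (a - b)(1 - ‖c‖²)/((1 + conj c a)(1 + conj c b))` and
`1 - conj (tau c a) tau c b = (1 - ‖c‖²)(1 - conj a b)/((1 + c conj a)(1 + conj c b))`. Triangle inequality: by invariance (`tau (-b)`) one may assume `b = 0`: `x = ‖a‖`, `y = ‖c‖`: `1 - rho a c ^2 = (1-x²)(1-y²)/‖1 - conj a c‖² ≥ (1-x²)(1-y²)/(1+xy)² = 1 - ((x+y)/(1+xy))²`, so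
`rho a c ≤ (x+y)/(1+xy)` and `LL ((x+y)/(1+xy)) = LL x * LL y`; `LL` is monotone on `[0,1)`. -/
def RHO_stmt : Prop :=
  (∀ a ∈ ball (0 : ℂ) 1, ∀ b ∈ ball (0 : ℂ) 1, 0 ≤ rho a b ∧ rho a b < 1 ∧ rho a b = rho b a ∧
    1 - rho a b ^ 2 = (1 - ‖a‖ ^ 2) * (1 - ‖b‖ ^ 2) / ‖1 - (starRingEnd ℂ) a * b‖ ^ 2) ∧
  (∀ a : ℂ, rho 0 a = ‖a‖ ∧ rho a a = 0) ∧
  (∀ c ∈ ball (0 : ℂ) 1, ∀ a ∈ ball (0 : ℂ) 1, ∀ b ∈ ball (0 : ℂ) 1,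
    rho (tau c a) (tau c b) = rho a b) ∧
  (∀ a ∈ ball (0 : ℂ) 1, ∀ b ∈ ball (0 : ℂ) 1, ∀ c ∈ ball (0 : ℂ) 1,
    LL (rho a c) ≤ LL (rho a b) * LL (rho b c))

/-- SPK (medium): the lemma of Schwarz and Pick. uses: MOB, RHO.
PROOF. `η = tau (-θ z) ∘ θ ∘ tau z` maps the disc to itself and `0` to `0`; Schwarz (`Complex.norm_le_norm_of_mapsTo_ball`): `‖η u‖ ≤ ‖u‖`; `u = tau (-z) w`: `rho (θ z) (θ w) ≤ rho z w`. Derivative: `η = tau (-θ 0) ∘ θ`, `η' 0 = θ' 0/(1 - ‖θ 0‖²)`, `‖η' 0‖ ≤ 1` (`Complex.norm_deriv_le_one_of_mapsTo_ball`). -/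
def SPK_stmt : Prop := ∀ θ : ℂ → ℂ, DifferentiableOn ℂ θ (ball 0 1) →
  MapsTo θ (ball 0 1) (ball 0 1) →
  (∀ z ∈ ball (0 : ℂ) 1, ∀ w ∈ ball (0 : ℂ) 1, rho (θ z) (θ w) ≤ rho z w) ∧
  ‖deriv θ 0‖ ≤ 1 - ‖θ 0‖ ^ 2

/-- OM0 (medium): the derivative at `0` of a map which omits `b`. uses: MOB, SPK.
PROOF. `F = tau (-b) ∘ θ = (θ - b)/(1 - conj b θ)` has no zero on the disc (`tau (-b)` is injective, `tau (-b) b = 0`), `F 0 = -b`. Square root `s` of `F` (`exists_lift_pow`, `n = 2`) maps the disc to itself, `‖s 0‖² = ‖b‖`. SPK: `‖s' 0‖ ≤ 1 - ‖s 0‖² = 1 - ‖b‖`. `F' 0 = 2 s(0) s'(0)` and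
`F' 0 = (1 - ‖b‖²) θ' 0` (`F = tau (-b) ∘ θ`, `tau (-b)` has derivative `1 - ‖b‖²` at `0`). So `(1-‖b‖²)‖θ' 0‖ ≤ 2 √‖b‖ (1-‖b‖)`, `‖θ' 0‖ ≤ 2√‖b‖/(1+‖b‖) ≤ 2√δ/(1+δ)` (`x ↦ 2x/(1+x²)` is increasing on `[0,1]`: `2y(1+x²) - 2x(1+y²) = 2(y-x)(1-xy)`). -/
def OM0_stmt : Prop := ∀ (δ : ℝ) (θ : ℂ → ℂ) (b : ℂ), 0 ≤ δ → δ < 1 → DifferentiableOn ℂ θ (ball 0 1) →
  MapsTo θ (ball 0 1) (ball 0 1) → θ 0 = 0 → ‖b‖ ≤ δ → b ∉ θ '' ball 0 1 →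
  ‖deriv θ 0‖ ≤ 2 * Real.sqrt δ / (1 + δ)

/-- ONE (medium): the contraction at distance `1/2`. uses: MOB, RHO, SPK, OM0.
PROOF. Let `k = 2√δ/(1+δ) < 1` (`(1-√δ)² > 0`) and `σ = (1/2)(k + 1/2)/(1 + k/2) < 1/2`. `η = tau (-θ z) ∘ θ ∘ tau z`, `η 0 = 0`, and `η` omits `b' = tau (-θ z) b`, `‖b'‖ = rho (θ z) b ≤ δ`. OM0: `‖η' 0‖ ≤ k`. Let `h u = η u/u` (`dslope η 0`), holomorphic, `‖h‖ ≤ 1` (Schwarz), `h 0 = η' 0`.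
If `‖h‖ < 1` on the disc, SPK for `h`: `rho (h 0) (h u) ≤ ‖u‖`, so by RHO (triangle inequality through `0`: `LL ‖h u‖ = LL (rho 0 (h u)) ≤ LL (rho 0 (h 0)) LL (rho (h 0) (h u)) ≤ LL k LL ‖u‖`) `‖h u‖ ≤ (k+‖u‖)/(1+k‖u‖)`. If `‖h u‖ = 1` somewhere, `h` is constant (maximum principle) and `‖h 0‖ = 1 > k`, impossible
(or apply the first case to `r h`, `r < 1`, and let `r → 1`). So `‖η u‖ ≤ ‖u‖ (k+‖u‖)/(1+k‖u‖)`, increasing in `‖u‖`. `u = tau (-z) w`, `‖u‖ = rho z w ≤ 1/2`, `‖η u‖ = rho (θ z) (θ w)`. -/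
def ONE_stmt : Prop := ∀ δ : ℝ, 0 ≤ δ → δ < 1 → ∃ σ : ℝ, 0 < σ ∧ σ < 1 / 2 ∧ ∀ θ : ℂ → ℂ, Thin δ θ →
  ∀ z ∈ ball (0 : ℂ) 1, ∀ w ∈ ball (0 : ℂ) 1, rho z w ≤ 1 / 2 → rho (θ z) (θ w) ≤ σ

/-- CHN (medium): chains. uses: MOB, RHO.
PROOF. Induction on `j`; `j = 0`: `LL (rho z w) ≤ 1` gives `rho z w = 0`, `z = w`. Step: if `rho z w ≤ 1/2`: `LL (rho (θ z) (θ w)) ≤ LL σ ≤ LL σ ^ (j+1)` (`LL σ ≥ 1`). Otherwise `w' = tau (-z) w`, `‖w'‖ = rho z w > 1/2`, `u' = w'/(2‖w'‖)`, `u = tau z u'`: `rho z u = ‖u'‖ = 1/2`, `rho u w = rho u' w' = (‖w'‖ - 1/2)/(1 - ‖w'‖/2)`,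
`LL (rho u w) = LL ‖w'‖/3 ≤ 3^j` (`LL (1/2) = 3`). Triangle inequality for `θ z, θ u, θ w` and the induction hypothesis. -/
def CHN_stmt : Prop := ∀ (σ : ℝ) (θ : ℂ → ℂ), 0 < σ → σ < 1 / 2 → MapsTo θ (ball 0 1) (ball 0 1) →
  (∀ z ∈ ball (0 : ℂ) 1, ∀ w ∈ ball (0 : ℂ) 1, rho z w ≤ 1 / 2 → rho (θ z) (θ w) ≤ σ) →
  ∀ (j : ℕ), ∀ z ∈ ball (0 : ℂ) 1, ∀ w ∈ ball (0 : ℂ) 1, LL (rho z w) ≤ 3 ^ j →
    LL (rho (θ z) (θ w)) ≤ LL σ ^ j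

/-- PAR (medium): choice of the numbers. uses: ONE, CHN, RHO.
PROOF. `lam = LL σ`, `1 < lam < 3`. `R2 = (3^j - 1)/(3^j + 1)`, `R1 = (lam^j - 1)/(lam^j + 1)`, so `LL R2 = 3^j`, `LL R1 = lam^j`, `LL` is strictly increasing on `[0,1)`: CHN gives `con`. `1 - R2² = 4·3^j/(3^j+1)² ≤ 4/3^j`, `1 - R1² = 4 lam^j/(lam^j+1)² ≥ 1/lam^j`. Let `j ≥ 1` with `(lam/3)^j < g/4`:
`(1-R2²)/g < 1 - R1²`. `R = √(1 - (1-R2²)/g)`. -/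
def PAR_stmt : Prop := ∀ (n : ℕ) (δ g : ℝ), 1 ≤ n → 0 ≤ δ → δ < 1 → 0 < g → g * n ≤ 1 → RtP n g →
  ∃ R1 R R2 : ℝ, PR n δ g R1 R R2

/-- SEC (short/medium): compactness.
PROOF. `t = ‖t‖ exp (i arg t)`. The function `(r, α) ↦ ‖∑_(i<n) (r e^(iα))^i‖` is continuous on the compact set `[0,1] × [-π/n, π/n]` and not `0`: if the sum is `0` then `t ≠ 1` (the sum is `n` at `1`) and `t^n = 1`, so `r = 1` and `nα ∈ 2πℤ`, `|nα| ≤ π`, so `α = 0`, `t = 1`. -/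
def SEC_stmt : Prop := ∀ n : ℕ, 2 ≤ n → ∃ κ : ℝ, 0 < κ ∧ ∀ t : ℂ, ‖t‖ ≤ 1 → |arg t| ≤ Real.pi / n →
  κ ≤ ‖∑ i ∈ Finset.range n, t ^ i‖

/-- RTL (medium): the loss of the `n`-th root. uses: SEC, MOB, RHO.
PROOF. `g = min (1/n) ((κ/n)²)`. `Y = y ^ (n⁻¹)` (`Y^n = y`, `Complex.cpow_nat_inv_pow`; `arg Y = arg y/n`, so `|arg Y| < π/n`), `v = w Y`, `v^n = w^n y`, so `‖v‖ < 1`. `t = conj w * v = ‖w‖² Y`, `‖t‖ < 1`, `|arg t| ≤ π/n`; `1 - t^n = (1-t)∑ t^i` (`mul_geom_sum`), so `‖1-t‖ ≤ ‖1-t^n‖/κ`, `t^n = conj (w^n) v^n`.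
`1 - ‖w‖² ≥ (1 - ‖w‖^(2n))/n`, the same for `v` (`1 - x^n ≤ n(1-x)` for `0 ≤ x ≤ 1`, Bernoulli). So by RHO `1 - rho w v ^2 = (1-‖w‖²)(1-‖v‖²)/‖1-t‖² ≥ (κ/n)² (1-‖w^n‖²)(1-‖v^n‖²)/‖1-t^n‖² = (κ/n)² (1 - rho (w^n) (v^n)^2)`. -/
def RTL_stmt : Prop := ∀ n : ℕ, 2 ≤ n → ∃ g : ℝ, 0 < g ∧ g * n ≤ 1 ∧ ∀ w ∈ ball (0 : ℂ) 1, w ≠ 0 →
  ∀ y ∈ slitPlane, ‖w ^ n * y‖ < 1 → ‖w * y ^ ((n : ℂ)⁻¹)‖ < 1 ∧
    g * (1 - rho (w ^ n) (w ^ n * y) ^ 2) ≤ 1 - rho w (w * y ^ ((n : ℂ)⁻¹)) ^ 2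

/-- RTE (medium): the branch of the `n`-th root. uses: RTL, MOB, RHO.
PROOF. `m z = tau (-z₀) z = (z - z₀)/(1 - conj z₀ z)`, `m 0 = -z₀ = w^n`. `y z = m z/m 0 = (1 - z/z₀)/(1 - conj z₀ z)`: for `‖z‖ < R ≤ ‖z₀‖ < 1` numerator and denominator have positive real parts (`‖z/z₀‖ < 1`), so the quotient is in `slitPlane` (if `a, b` have positive real part, `a/b = a conj b/‖b‖²`; if it is a real number
`≤ 0`, then `a = x b` with `x ≤ 0`, contradiction with the real parts). `b z = w * (y z)^(n⁻¹)`, `b z ^ n = m z`, `tau z₀ (m z) = z` (MOB), `b 0 = w * 1`. RTL: `w^n y z = m z`, `rho (m 0) (m z) = rho 0 z = ‖z‖` (RHO, `tau (-z₀)`). Holomorphic: `cpow` on the slit plane. -/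
def RTE_stmt : Prop := ∀ n : ℕ, 2 ≤ n → ∃ g : ℝ, 0 < g ∧ g * n ≤ 1 ∧ RtP n g

/-! ## Part L: pulling back -/

/-- INV (medium): lifting through an injective map. uses: V3.KO0 (proved).
PROOF. `θ = Function.invFunOn φ Ω' ∘ ψ`. Continuity and differentiability of the inverse: at `a = θ z`, `deriv φ a ≠ 0` (KO0), so `φ` has a local inverse `χ` near `φ a` (`HasStrictDerivAt.toOpenPartialHomeomorph`, `HasStrictDerivAt.to_localInverse`) with values near `a` (in `Ω'`), which agrees with `invFunOn` by injectivity. -/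
def INV_stmt : Prop := ∀ (φ ψ : ℂ → ℂ) (Ω Ω' : Set ℂ), IsOpen Ω → IsOpen Ω' →
  DifferentiableOn ℂ φ Ω' → InjOn φ Ω' → DifferentiableOn ℂ ψ Ω → ψ '' Ω ⊆ φ '' Ω' →
  ∃ θ : ℂ → ℂ, DifferentiableOn ℂ θ Ω ∧ MapsTo θ Ω Ω' ∧ ∀ z ∈ Ω, φ (θ z) = ψ z

/-- LIF (medium): pull back as long as possible. `exists_lift_pow` (helper98).
PROOF. Show by induction on `j ≤ k`: either the second alternative holds, or there is `g` with `g 0 = f^(k-j) y`, `f^j ∘ g = Φ` on the disc. `j = 0`: `g = Φ`. Step `j → j+1 ≤ k`: if `g` takes the value `c` we are in the second alternative; otherwise `exists_lift_pow` for `h = g - c`, centre `0`, `u = f^(k-j-1) y` (`u^n = f u - c = g 0 - c`) gives `g₁`, `g₁ 0 = u`,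
`f (g₁ z) = g z`, `f^(j+1) (g₁ z) = f^j (g z) = Φ z`. -/
def LIF_stmt : Prop := ∀ (n : ℕ) (c : ℂ) (Φ : ℂ → ℂ) (y : ℂ) (k : ℕ), 1 ≤ n →
  DifferentiableOn ℂ Φ (ball 0 1) → (ff n c)^[k] y = Φ 0 →
  (∃ g : ℂ → ℂ, DifferentiableOn ℂ g (ball 0 1) ∧ g 0 = y ∧
    ∀ z ∈ ball (0 : ℂ) 1, (ff n c)^[k] (g z) = Φ z) ∨
  ∃ j < k, ∃ g : ℂ → ℂ, DifferentiableOn ℂ g (ball 0 1) ∧ g 0 = (ff n c)^[k - j] y ∧
    (∀ z ∈ ball (0 : ℂ) 1, (ff n c)^[j] (g z) = Φ z) ∧ ∃ z₀ ∈ ball (0 : ℂ) 1, g z₀ = c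

/-- UNF (medium): uniformisation of the branched pull-back. uses: MOB; V3.KO0, `exists_lift_pow`.
PROOF. `h u = g (tau z₀ u) - c` is holomorphic and injective on the disc, `h 0 = 0`, so it has no other zero and `h' 0 ≠ 0` (KO0). `e = dslope h 0` is holomorphic without zeros, `h u = u * e u`. `E^n = e` (`exists_lift_pow`). `ψ u = u * E (u^n)`: `ψ u ^ n = u^n e (u^n) = h (u^n)`, so `f (ψ u) = g (tau z₀ (u^n))`. Let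
`w₀^n = -z₀` (`IsAlgClosed.exists_pow_nat_eq`), `‖w₀‖ < 1`. `tau z₀ (-z₀) = 0`: `ψ w₀ ^ n = g 0 - c = y^n`, `≠ 0`, so `ζ = y/ψ w₀`, `ζ^n = 1`, `w = ζ w₀`: `ψ w = ζ w₀ E (w₀^n) = y`. -/
def UNF_stmt : Prop := ∀ (n : ℕ) (c : ℂ) (g : ℂ → ℂ) (z₀ y : ℂ), 1 ≤ n →
  DifferentiableOn ℂ g (ball 0 1) → InjOn g (ball 0 1) → z₀ ∈ ball (0 : ℂ) 1 → g z₀ = c →
  ff n c y = g 0 → y ≠ 0 → ∃ (ψ : ℂ → ℂ) (w : ℂ), DifferentiableOn ℂ ψ (ball 0 1) ∧ ψ 0 = 0 ∧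
    w ∈ ball (0 : ℂ) 1 ∧ w ^ n = -z₀ ∧ ψ w = y ∧
    ∀ u ∈ ball (0 : ℂ) 1, ff n c (ψ u) = g (tau z₀ (u ^ n))

/-- VIS (short): PROOF. `ψ '' ball 0 1` is preconnected, contains `0` and is contained in the preimage (`IsPreconnected.subset_connectedComponentIn`). -/
def VIS_stmt : Prop := ∀ (n l : ℕ) (c : ℂ) (ψ : ℂ → ℂ) (V U : Set ℂ), 1 ≤ l →
  ContinuousOn ψ (ball 0 1) → ψ 0 = 0 → (∀ u ∈ ball (0 : ℂ) 1, (ff n c)^[l] (ψ u) ∈ V) →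
  (∀ l : ℕ, 1 ≤ l → connectedComponentIn {z | (ff n c)^[l] z ∈ V} 0 ⊆ U) → ψ '' ball 0 1 ⊆ U

/-- STP (medium/long): THE STEP. uses: MOB, RHO, UNF, VIS, INV.
PROOF. `G` is injective on the disc (`φ ∘ tau a` is). UNF: `ψ, w`; `f^(j+1) (ψ u) = f^j (G (tau z₀ (u^n))) = φ (tau a (tau z₀ (u^n))) ∈ V`. VIS: `ψ '' D ⊆ U ⊆ V`. INV: `θ`, `φ ∘ θ = ψ`, and `Thin δ θ` (`φ (θ z) = ψ z ∈ U`, `VD.thin` gives `b` with `φ b ∉ U`, so `b ∉ θ '' D`). `θ 0 = 0` (`φ (θ 0) = 0 = φ 0`). `a' = θ w`, `φ a' = ψ w = y`.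
Let `R1 < ‖a'‖ = rho (θ 0) (θ w)`. By `con` `R2 < rho 0 w = ‖w‖`. So `1 - ‖z₀‖² = 1 - ‖w‖^(2n) ≤ n (1 - ‖w‖²) ≤ n (1-R2²) ≤ n g (1-R²) ≤ 1 - R²`, `R ≤ ‖z₀‖`. `root`: `b`. `rho w (b z) ≤ R2` for `‖z‖ < R` (`1 - rho² ≥ g(1-‖z‖²) ≥ g (1-R²) ≥ 1 - R2²`), so `rho (θ w) (θ (b z)) ≤ R1 < R`.
`h z = tau (-a') (θ (b z))`: `‖h z‖ = rho a' (θ (b z)) < R`, `h 0 = tau (-a') a' = 0`, `tau a' (h z) = θ (b z)`, `f^(j+1) (φ (θ (b z))) = f^(j+1) (ψ (b z)) = φ (tau a (tau z₀ (b z ^ n))) = φ (tau a z)`. -/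
def STP_stmt : Prop := ∀ (n : ℕ) (c : ℂ) (δ : ℝ) (φ : ℂ → ℂ) (U : Set ℂ) (g R1 R R2 : ℝ), 2 ≤ n →
  VD n c δ φ U → PR n δ g R1 R R2 → ∀ (a : ℂ) (j : ℕ) (G : ℂ → ℂ) (z₀ y : ℂ), a ∈ ball (0 : ℂ) 1 →
  DifferentiableOn ℂ G (ball 0 1) → (∀ z ∈ ball (0 : ℂ) 1, (ff n c)^[j] (G z) = φ (tau a z)) →
  z₀ ∈ ball (0 : ℂ) 1 → G z₀ = c → ff n c y = G 0 → y ≠ 0 →
  ∃ a' ∈ ball (0 : ℂ) 1, φ a' = y ∧ (R1 < ‖a'‖ → ∃ h : ℂ → ℂ, DifferentiableOn ℂ h (ball 0 R) ∧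
    MapsTo h (ball 0 R) (ball 0 R) ∧ h 0 = 0 ∧
    ∀ z ∈ ball (0 : ℂ) R, (ff n c)^[j + 1] (φ (tau a' (h z))) = φ (tau a z))

/-- NCL (short): `Star` for a lift on `ball 0 R`. uses: MOB.
PROOF. Otherwise `‖a‖ ≤ R1`; `Star` with `Φ z = φ (tau a (R z))`, `g z = G (R z)`, `b = -a/R`, `‖b‖ ≤ R1/R`: `Φ b = φ (tau a (-a)) = φ 0 = 0`, contradiction. -/
def NCL_stmt : Prop := ∀ (n : ℕ) (c : ℂ) (δ : ℝ) (φ : ℂ → ℂ) (U : Set ℂ) (R1 R : ℝ) (x a : ℂ)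
  (T k : ℕ) (G : ℂ → ℂ), VD n c δ φ U → 0 < R1 → R1 < R → R < 1 → Star n c x (R1 / R) T → T ≤ k →
  a ∈ ball (0 : ℂ) 1 → DifferentiableOn ℂ G (ball 0 R) → G 0 = x →
  (∀ z ∈ ball (0 : ℂ) R, (ff n c)^[k] (G z) = φ (tau a z)) → R1 < ‖a‖

/-- IND (medium): the induction. uses: STP, NCL, LIF, MOB.
PROOF. Strong induction on `k`: there is `G` on `ball 0 R` with `G 0 = x`, `f^k ∘ G = φ ∘ tau a`. LIF for `Φ = φ ∘ tau a`, `y = x`: first alternative: restrict. Second alternative: `j < k`, `g`, `z₀`; STP with `G = g`, `y = f^(k-j-1) x` (`f y = f^(k-j) x = g 0`, `y ≠ 0`): `a'`, a visit at the time `k' = k-j-1 < k`; `k' ≥ T` (hypothesis on `V`);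
induction hypothesis: `G'` on `ball 0 R`, NCL: `R1 < ‖a'‖`; `h` from STP; `G z = G' (h z)`: `f^k (G z) = f^(j+1) (f^(k') (G' (h z))) = f^(j+1) (φ (tau a' (h z))) = φ (tau a z)`. Finally NCL at the time `k ≥ T`. -/
def IND_stmt : Prop := ∀ (n : ℕ) (c : ℂ) (δ : ℝ) (φ : ℂ → ℂ) (U : Set ℂ) (g R1 R R2 : ℝ) (x : ℂ)
  (T : ℕ), 2 ≤ n → VD n c δ φ U → PR n δ g R1 R R2 → Star n c x (R1 / R) T →
  (∀ k < T, (ff n c)^[k] x ∉ φ '' ball 0 1) → (∀ k, (ff n c)^[k] x ≠ 0) →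
  ∀ (k : ℕ) (a : ℂ), a ∈ ball (0 : ℂ) 1 → (ff n c)^[k] x = φ a → R1 < ‖a‖

/-! ## Part M: the rotation lemma -/

/-- NUL (medium): preimages of null sets.
PROOF. `MeasureTheory.measure_null_of_locally_null` (or a countable cover): near `z ∈ Ω` the map `h` has a local inverse `χ`, holomorphic on an open set (`HasStrictDerivAt.toOpenPartialHomeomorph`, real or complex derivative), and `{h ∈ N}` is locally contained in `χ '' (N ∩ target)`, a null set (`addHaar_image_eq_zero_of_differentiableOn_of_addHaar_eq_zero`). -/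
def NUL_stmt : Prop := ∀ (h : ℂ → ℂ) (Ω N : Set ℂ), IsOpen Ω → DifferentiableOn ℂ h Ω →
  (∀ z ∈ Ω, deriv h z ≠ 0) → volume N = 0 → volume {z | z ∈ Ω ∧ h z ∈ N} = 0

/-- ITR (short/medium): invariance under the iterates. uses: NUL.
PROOF. Induction on `t`. `f^(t+1) = f^t ∘ f`, `(f^(t+1))' z = (f^t)'(f z) f' z`. For almost every `z` the claim for `t` holds at `f z` (the exceptional set has a null preimage: NUL for `f` on `{z ≠ 0}`, `f' z = n z^(n-1)`), so `μ (f^(t+1) z) conj((f^t)'(f z))/(f^t)'(f z) = μ (f z)`; multiply by `conj (f' z)/f' z`. -/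
def ITR_stmt : Prop := ∀ (n : ℕ) (c : ℂ) (μ : ℂ → ℂ), 1 ≤ n →
  (∀ᵐ z : ℂ, μ (ff n c z) * (starRingEnd ℂ) (deriv (ff n c) z) / deriv (ff n c) z = μ z) →
  ∀ t : ℕ, ∀ᵐ z : ℂ, μ ((ff n c)^[t] z) * (starRingEnd ℂ) (deriv ((ff n c)^[t]) z) /
    deriv ((ff n c)^[t]) z = μ z

/-- ROT (short/medium): the rotation.
PROOF. For almost all `z ≠ 0` the invariance holds at `z` and at `ω z` (multiplication by `ω` preserves null sets). `f (ω z) = f z`, `f' (ω z) = n ω^(n-1) z^(n-1) = ω⁻¹ f' z`, `conj (ω⁻¹) = ω`: `μ (ω z) = μ (f z) conj(ω⁻¹ f' z)/(ω⁻¹ f' z) = ω² μ z`. -/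
def ROT_stmt : Prop := ∀ (n : ℕ) (c ω : ℂ) (μ : ℂ → ℂ), 1 ≤ n → ω ^ n = 1 →
  (∀ᵐ z : ℂ, μ (ff n c z) * (starRingEnd ℂ) (deriv (ff n c) z) / deriv (ff n c) z = μ z) →
  ∀ᵐ z : ℂ, μ (ω * z) = ω ^ 2 * μ z

/-- SYM (medium/long): the local symmetry. uses: INV; V3.KO0, V3.KO1, V3.KO3 (proved).
PROOF. `C ≥ 1` a common constant of KO1 and KO3 for `η = 1/2` and `η = (1-q)/2`. `g` is injective on the disc (`F ∘ g = Φ`), `p = g b`. KO3 (centre `0`, `x = b ∈ ball 0 ((1-(1-q)/2)·1)`): `‖g b - g 0‖ ≤ C ‖g' 0‖`, `‖g' 0‖ ≤ C ‖g' b‖`, `‖g' b‖ ≤ C ‖g' 0‖`. `g (ball b (1-q)) ⊇ ball p s₀`, `s₀ = (1-q)‖g' b‖/C` (KO1), `s₀ > 0` (KO0).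
`F` is injective on `ball p s₀` (`F (g z) = Φ z`, `Φ` injective), `F p = 0`, `F' ≠ 0` there (KO0). `F (ball p s₀) ⊇ ball 0 (s₀ ‖F' p‖/C)` (KO1), `‖F z‖ ≤ C ‖z - p‖ ‖F' p‖` on `ball p (s₀/2)` (KO3). `s₁ = s₀/(2C²)` (`≤ s₀/2`): for `z ∈ ball p s₁` `ω F z ∈ ball 0 (s₀‖F' p‖/(2C))`, INV: `S` on `ball p s₁`, values in `ball p s₀`, `F (S z) = ω F z`;
`S` is injective, `S p = p` (`F (S p) = 0 = F p`), `S' p = ω` (chain rule, `F' p ≠ 0`). KO3 for `S` on `ball p s₁`: `‖S' z - ω‖ ≤ C ‖z-p‖/s₁` for `‖z - p‖ < s₁/2`. `s = s₁ min(η, 1)/(4C)`: `‖S' z - ω‖ ≤ min(η,1)/4` on `ball p s`, `‖S z - p‖ ≤ 2‖z-p‖` (mean value), `2s ≤ s₀`. `K = 8 C^5/((1-q) min(η,1))` or larger: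
`‖g 0 - g b‖ ≤ C ‖g' 0‖ ≤ C² ‖g' b‖ = C³ s₀/(1-q)`, `s₀ = 2C² s₁`, `s₁ = 4C s/min(η,1)`. -/
def SYM_stmt : Prop := ∀ q η : ℝ, 0 ≤ q → q < 1 → 0 < η → ∃ K : ℝ, 1 ≤ K ∧
  ∀ (F Φ g : ℂ → ℂ) (ω b : ℂ), Differentiable ℂ F → ‖ω‖ = 1 → DifferentiableOn ℂ Φ (ball 0 1) →
  InjOn Φ (ball 0 1) → DifferentiableOn ℂ g (ball 0 1) → (∀ z ∈ ball (0 : ℂ) 1, F (g z) = Φ z) →
  ‖b‖ ≤ q → Φ b = 0 → ∃ (s : ℝ) (S : ℂ → ℂ), 0 < s ∧ ‖g 0 - g b‖ ≤ K * s ∧ s ≤ K * ‖deriv g 0‖ ∧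
    DifferentiableOn ℂ S (ball (g b) s) ∧ InjOn S (ball (g b) s) ∧
    MapsTo S (ball (g b) s) (ball (g b) (2 * s)) ∧
    (∀ z ∈ ball (g b) s, F (S z) = ω * F z ∧ ‖deriv S z - ω‖ ≤ η) ∧
    (∀ z ∈ ball (g b) (2 * s), deriv F z ≠ 0)

/-- SIV (medium): the symmetry preserves the line field. uses: NUL; V3.KO0.
PROOF. `S' ≠ 0` (KO0). For almost all `z ∈ ball p s`: `μ (F z) conj(F' z)/F' z = μ z`; the same at `S z` (NUL for `S`); `μ (ω F z) = ω² μ (F z)` (NUL for `F` on `ball p s ⊆ ball p (2s)`). `F' (S z) S' z = ω F' z` (derivative of `F ∘ S = ω F` on the open ball). So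
`μ (S z) conj(S')/S' = μ (ω F z) conj(F'(Sz) S')/(F'(Sz) S') = ω² μ (F z) conj(ω F' z)/(ω F' z) = ω² conj(ω)/ω μ z = μ z` (`conj ω = ω⁻¹`). -/
def SIV_stmt : Prop := ∀ (μ F S : ℂ → ℂ) (ω p : ℂ) (s : ℝ), 0 < s → ‖ω‖ = 1 → Differentiable ℂ F →
  (∀ᵐ z : ℂ, μ (F z) * (starRingEnd ℂ) (deriv F z) / deriv F z = μ z) →
  (∀ᵐ z : ℂ, μ (ω * z) = ω ^ 2 * μ z) → DifferentiableOn ℂ S (ball p s) → InjOn S (ball p s) →
  MapsTo S (ball p s) (ball p (2 * s)) → (∀ z ∈ ball p s, F (S z) = ω * F z) →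
  (∀ z ∈ ball p (2 * s), deriv F z ≠ 0) →
  ∀ᵐ z : ℂ, z ∈ ball p s → μ (S z) * (starRingEnd ℂ) (deriv S z) / deriv S z = μ z

/-- CVL (short/medium): change of variables.
PROOF. `MeasureTheory.lintegral_image_eq_lintegral_abs_det_fderiv_mul` (the real derivative of `S` has determinant `‖S'‖² ≥ 1/4`; see `det_smul`, `volume_image_ge` in `Pool/Agent/helper98/ILF/Density.lean`), or the Bochner version `integral_image_eq_integral_abs_det_fderiv_smul`;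
`∫_(ball p s) h (S z) ≤ 4 ∫_(ball p s) h (S z) ‖S'‖² = 4 ∫_(S '' ball p s) h ≤ 4 ∫_(ball p (2s)) h` (`h ≥ 0` bounded, measurable). -/
def CVL_stmt : Prop := ∀ (S : ℂ → ℂ) (h : ℂ → ℝ) (p : ℂ) (s : ℝ), 0 < s → Measurable h →
  (∀ z, 0 ≤ h z ∧ h z ≤ 2) → DifferentiableOn ℂ S (ball p s) → InjOn S (ball p s) →
  MapsTo S (ball p s) (ball p (2 * s)) → (∀ z ∈ ball p s, 1 / 2 ≤ ‖deriv S z‖) →
  ∫ z in ball p s, h (S z) ≤ 4 * ∫ z in ball p (2 * s), h z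

/-- AVG (medium): the average. uses: CVL.
PROOF. On `B = ball p s`, almost everywhere, with `κ z = conj (S' z)/S' z`: `e - ω⁻² e = (e - μ z) + μ (S z) (κ z - ω⁻²) + (μ (S z) - e) ω⁻²` (`μ z = μ (S z) κ z`). `‖κ z - ω⁻²‖ ≤ 4 η` (`conj ω/ω = ω⁻²`; `‖conj a/a - conj b/b‖ ≤ 2‖a - b‖/‖a‖` for `‖b‖ = 1`, and `‖S'‖ ≥ 3/4`). Integrate over `B`, area `π s²`:
`π s² ‖1 - ω²‖ ≤ ∫_B ‖μ - e‖ + 4 π η s² + ∫_B ‖μ (S z) - e‖ ≤ 5 ∫_(ball p (2s)) ‖μ - e‖ + 4 π η s²` (CVL). `‖e - ω⁻² e‖ = ‖1 - ω²‖`. (`C = 5` works.) -/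
def AVG_stmt : Prop := ∃ C : ℝ, 0 < C ∧ ∀ (μ S : ℂ → ℂ) (ω e p : ℂ) (s η : ℝ), Measurable μ →
  (∀ z, ‖μ z‖ ≤ 1) → ‖ω‖ = 1 → ‖e‖ = 1 → 0 < s → 0 ≤ η → η ≤ 1 / 4 →
  DifferentiableOn ℂ S (ball p s) → InjOn S (ball p s) → MapsTo S (ball p s) (ball p (2 * s)) →
  (∀ z ∈ ball p s, ‖deriv S z - ω‖ ≤ η) →
  (∀ᵐ z : ℂ, z ∈ ball p s → μ (S z) * (starRingEnd ℂ) (deriv S z) / deriv S z = μ z) →
  ‖1 - ω ^ 2‖ * s ^ 2 ≤ C * (∫ z in ball p (2 * s), ‖μ z - e‖) + C * η * s ^ 2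

/-- DEN (medium): density points.
PROOF. `IsUnifLocDoublingMeasure.ae_tendsto_average_norm_sub` for `K ∈ ℕ` (countably many `K`; `μ` is locally integrable), with `ι = ℕ`: if the claim fails for some `K, ε` (enlarge `K` to a natural number) there are `p_j, s_j → 0+` with `‖x - p_j‖ ≤ K s_j` and integral over `ball p_j s_j` (`≤` the one over the closed ball) `> ε s_j²`; the average over
`closedBall p_j s_j` (area `π s_j²`) is then `> ε/π`, contradiction. -/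
def DEN_stmt : Prop := ∀ μ : ℂ → ℂ, Measurable μ → (∀ z, ‖μ z‖ ≤ 1) → ∀ᵐ x : ℂ, ∀ K ε : ℝ, 0 < ε →
  ∃ δ > (0 : ℝ), ∀ (p : ℂ) (s : ℝ), 0 < s → s < δ → ‖x - p‖ ≤ K * s →
    ∫ z in ball p s, ‖μ z - μ x‖ ≤ ε * s ^ 2

/-- INJ (medium): the iterates are not injective near points of the Julia set. uses: V3.KO1, V3.KO3; `juliaSet_subset`, `chordal_le` (helper98).
PROOF. If the claim fails for `ρ`, `f^t` is injective on `ball x ρ` for infinitely many `t`, hence for all `t` (`f^t` injective implies `f^s` injective for `s ≤ t`). Let `β ≠ x` in `ball x ρ ∩ J`, `d = ‖β - x‖`. KO1 on `ball x d`: the image of `ball x d` contains `ball (f^t x) (d ‖(f^t)' x‖/C)`, and `f^t β` is not in the image, so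
`d ‖(f^t)' x‖/C ≤ ‖f^t β - f^t x‖ ≤ 2(2+‖c‖)` (`J ⊆ filled`, `juliaSet_subset`). KO3 (`η = 1/2`): `‖(f^t)'‖ ≤ M` on `ball x (ρ/2)` for all `t`, so `f^t` is Lipschitz with constant `M` on this ball, all its points are in `{EquicontAt}` (`chordal_le`), so `x ∈ fatouSet`, contradiction. -/
def INJ_stmt : Prop := ∀ (n : ℕ) (c x : ℂ), 2 ≤ n → x ∈ juliaSet (ff n c) →
  (∀ ρ > (0 : ℝ), ∃ β ∈ juliaSet (ff n c), β ≠ x ∧ β ∈ ball x ρ) →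
  ∀ ρ > (0 : ℝ), ∃ T : ℕ, ∀ t ≥ T, ¬ InjOn ((ff n c)^[t]) (ball x ρ)

/-- STR (medium/long): THE ROTATION LEMMA. uses: ITR, ROT, SYM, SIV, AVG, DEN, INJ; V3.KO1.
PROOF. `ω = exp (2πi/n)`, `ω² ≠ 1` (`n ≥ 3`), `κ = ‖1 - ω²‖ > 0`. `x` with the property of DEN, `μ x ≠ 0` (so `‖μ x‖ = 1`, `x ∈ J`). (1) for every `ρ > 0` there is `β ∈ J ∩ ball x ρ`, `β ≠ x`: otherwise `μ = 0` on `ball x ρ \ {x}` and `∫_(ball x s) ‖μ - μ x‖ = π s²` for `s < ρ`, against DEN with `ε = 1`, `K = 0`. So INJ applies.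
(2) Let `q < 1` (may assume `0 ≤ q`), `C` from AVG, `η = min (1/4) (κ/(4C))`, `K` from SYM for `q, η`; `ε = κ/(16 C)`, DEN with `K` and `ε` (balls `ball p (2s)`, `‖x - p‖ ≤ K s ≤ K (2s)`): `δ`. `C₁` from KO1: `ρ = δ/(4 K C₁)`, `T` from INJ. Suppose `Star` fails for `t ≥ T`: `Φ, g, b`, `Φ b = 0`. `g` is injective, `g (D) ⊇ ball x (‖g' 0‖/C₁)`, on which `f^t` is injective,
so `‖g' 0‖/C₁ < ρ` (INJ), `‖g' 0‖ < δ/(4K)`. SYM with `F = f^t`: `s, S`, `s ≤ K ‖g' 0‖ < δ/4`. SIV (with ITR, ROT) and AVG with `e = μ x`: `κ s² ≤ C ε (2s)² + C η s² ≤ (κ/4 + κ/4) s²`, contradiction. -/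
def STR_stmt : Prop := ∀ (n : ℕ) (c : ℂ) (μ : ℂ → ℂ), 3 ≤ n → IsInvariantLineField (ff n c) μ →
  ∀ᵐ x : ℂ, μ x ≠ 0 → ∀ q : ℝ, q < 1 → ∃ T : ℕ, Star n c x q T

/-! ## Part R: recurrence, and the theorem -/

/-- LYU (medium): points of the Julia set which stay away from the critical orbit.
PROOF. Copy the proof of `volume_frontier_filled` (`Pool/Agent/helper98/ILF/Poly.lean`) with `S` instead of the frontier of the filled Julia set: `S` is closed (an intersection of closed sets), `S ⊆ frontier (filled n c)`, `f S ⊆ S`, compact with empty interior; all other facts used there hold for points of the frontier. -/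
def LYU_stmt : Prop := ∀ (n : ℕ) (c : ℂ) (r : ℝ), 2 ≤ n → 0 < r →
  volume {z | z ∈ frontier (filled n c) ∧ ∀ k j : ℕ, 3 * r ≤ ‖(ff n c)^[k] z - (ff n c)^[j] c‖} = 0

/-- REC (medium): recurrence. uses: LYU.
PROOF. For almost every `x ∈ J ⊆ frontier (filled n c)` (`juliaSet_subset`): for all `r = 1/(m+1)` there are `k, j` with `‖f^k x - f^j c‖ < 3 r` (LYU, countably many `r`). Let `ε > 0`, `V, N` for `ε/2`. The maps `f^s`, `s ≤ N`, are uniformly continuous on `closedBall 0 (3 + ‖c‖)` (compact): `η ≤ 1` such that `‖a - b‖ < η` implies `‖f^s a - f^s b‖ < ε/2` there.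
Take `k, j` with `‖f^k x - f^j c‖ < η` (`‖f^k x‖ ≤ 2 + ‖c‖`). `f^j c = f^(j+1) 0`. `i = j + 1`, `s` with `f^(i+s) 0 = f^s (f^j c) ∈ V ⊆ ball 0 (ε/2)`: `‖f^(k+s) x‖ < ε`. -/
def REC_stmt : Prop := ∀ (n : ℕ) (c : ℂ), 2 ≤ n →
  (∀ r > (0 : ℝ), ∃ (V : Set ℂ) (N : ℕ), V ⊆ ball 0 r ∧
    ∀ i : ℕ, ∃ s ∈ Finset.Icc 1 N, (ff n c)^[i + s] 0 ∈ V) →
  ∀ᵐ x : ℂ, x ∈ juliaSet (ff n c) → ∀ ε > (0 : ℝ), ∃ k : ℕ, ‖(ff n c)^[k] x‖ < ε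

/-- NZR (short): PROOF. `{x | f^k x = 0}` is finite (roots of a polynomial of degree `n^k`; or: `f⁻¹` of a finite set is finite, induction), so the union over `k` is countable. -/
def NZR_stmt : Prop := ∀ (n : ℕ) (c : ℂ), 1 ≤ n → ∀ᵐ x : ℂ, ∀ k : ℕ, (ff n c)^[k] x ≠ 0

/-- FIN (medium): THE THEOREM. uses: RTE, PAR, STR, IND, REC, NZR.
PROOF. Replace `δ` by `max δ 0`. `g` from RTE, `R1, R, R2` from PAR. Let `μ` be an invariant line field; `{μ ≠ 0}` has positive area, so there is `x` with `μ x ≠ 0` (so `x ∈ J`), the conclusions of STR, REC, NZR. `T` from STR for `q = R1/R < 1`. `r > 0` with `r < ‖f^k x‖` for `k < T`; `φ, U, N` from the hypothesis for `r`: `f^k x ∉ φ '' D` for `k < T`. IND: `R1 < ‖a‖` whenever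
`f^k x = φ a`. `φ '' ball 0 R1` is a neighbourhood of `φ 0 = 0` (open mapping; or `V3.KO1` and `KO0`), so by REC some `f^k x = φ a` with `‖a‖ < R1`: contradiction. -/
def FIN_stmt : Prop := ∀ (n : ℕ) (c : ℂ) (δ : ℝ), 3 ≤ n → δ < 1 → (∀ r > (0 : ℝ), Hyp n c δ r) →
  ¬ HasInvariantLineField (ff n c)

end EX
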