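import Pool.Agent.helper44.EX.Spec2
import Pool.Agent.helper38.V3.KO0
import Pool.Agent.helper89.V3.KO1
import Pool.Agent.helper23.V3.KO2
import Pool.Agent.helper70.V3.KO3
import Pool.Agent.helper90.EX.MOB
import Pool.Agent.helper13.EX.RHO
import Pool.Agent.helper53.EX.SPK
import Pool.Agent.helper61.EX.OM0
import Pool.Agent.helper42.EX.ONE
import Pool.Agent.helper66.EX.CHN
import Pool.Agent.helper24.EX.PAR
import Pool.Agent.helper14.EX.SEC
import Pool.Agent.helper19.EX.RTL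
import Pool.Agent.helper75.EX.RTE
import Pool.Agent.helper49.EX.INV
import Pool.Agent.helper73.EX.NULm
import Pool.Agent.helper62.EX.ITR
import Pool.Agent.helper95.EX.ROT
import Pool.Agent.helper23.EX.SYM
import Pool.Agent.helper82.EX.SIV
import Pool.Agent.helper67.EX.CVL
import Pool.Agent.helper15.EX.AVG
import Pool.Agent.helper70.EX.DEN
import Pool.Agent.helper31.EX.INJ
import Pool.Agent.helper52.EX.STR
import Pool.Agent.helper93.EX.LIF
import Pool.Agent.helper26.EX.VIS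
import Pool.Agent.helper97.EX.UNF
import Pool.Agent.helper41.EX.STP
import Pool.Agent.helper40.EX.NCL
import Pool.Agent.helper8.EX.IND
import Pool.Agent.helper38.EX.IN2
import Pool.Agent.helper84.EX.LYU
import Pool.Agent.helper33.EX.REC
import Pool.Agent.helper55.EX.NZR
import Pool.Agent.helper59.EX.FI2

/-!
# Project ex:, assembly (all modules but BA2)
-/

set_option autoImplicit false

noncomputable section

namespace EX

theorem Z_KO0 : V3.KO0_stmt := V3.KO0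
theorem Z_KO1 : V3.KO1_stmt := V3.KO1
theorem Z_KO2 : V3.KO2_stmt := V3.KO2 Z_KO0
theorem Z_KO3 : V3.KO3_stmt := V3.KO3 Z_KO0 Z_KO2
theorem Z_MOB : MOB_stmt := MOB
theorem Z_RHO : RHO_stmt := RHO Z_MOB
theorem Z_SPK : SPK_stmt := SPK Z_MOB Z_RHO
theorem Z_OM0 : OM0_stmt := OM0 Z_MOB Z_SPK
theorem Z_ONE : ONE_stmt := ONE Z_MOB Z_RHO Z_SPK Z_OM0
theorem Z_CHN : CHN_stmt := CHN Z_MOB Z_RHO
theorem Z_PAR : PAR_stmt := PAR Z_ONE Z_CHN Z_RHO
theorem Z_SEC : SEC_stmt := SEC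
theorem Z_RTL : RTL_stmt := RTL Z_SEC Z_RHO
theorem Z_RTE : RTE_stmt := RTE Z_RTL Z_MOB Z_RHO
theorem Z_INV : INV_stmt := INV Z_KO0
theorem Z_NUL : NUL_stmt := NUL
theorem Z_ITR : ITR_stmt := ITR Z_NUL
theorem Z_ROT : ROT_stmt := ROT
theorem Z_SYM : SYM_stmt := SYM Z_INV Z_KO0 Z_KO1 Z_KO3
theorem Z_SIV : SIV_stmt := SIV Z_NUL Z_KO0
theorem Z_CVL : CVL_stmt := CVL
theorem Z_AVG : AVG_stmt := AVG Z_CVL
theorem Z_DEN : DEN_stmt := DEN
theorem Z_INJ : INJ_stmt := INJ Z_KO1 Z_KO3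
theorem Z_STR : STR_stmt := STR Z_ITR Z_ROT Z_SYM Z_SIV Z_AVG Z_DEN Z_INJ Z_KO1
theorem Z_LIF : LIF_stmt := LIF
theorem Z_VIS : VIS_stmt := VIS
theorem Z_UNF : UNF_stmt := UNF Z_MOB Z_KO0
theorem Z_STP : STP_stmt := STP Z_MOB Z_RHO Z_UNF Z_VIS Z_INV
theorem Z_NCL : NCL_stmt := NCL Z_MOB
theorem Z_IN2 : IN2_stmt := IN2 Z_MOB Z_LIF Z_STP Z_NCL
theorem Z_LYU : LYU_stmt := LYU
theorem Z_REC : REC_stmt := REC Z_LYU
theorem Z_NZR : NZR_stmt := NZR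

theorem pre (h : BA2_stmt) : FI2_stmt :=
  FI2 Z_RTE Z_PAR Z_STR Z_IN2 h Z_REC Z_NZR Z_KO0 Z_KO1

end EX
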