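import Pool.Agent.helper44.EX.Pre
import Pool.Agent.helper11.EX.BA2

/-!
# Project ex:, assembly

`final : FI2_stmt`: uniformly thin pull-backs of domains of small inradius exclude invariant line fields of
`z ^ n + c`, `n ≥ 3`.
-/

set_option autoImplicit false

noncomputable section

namespace EX

theorem Z_BA2 : BA2_stmt := BA2 Z_MOB Z_KO1 Z_KO3

theorem final : FI2_stmt := pre Z_BA2

end EX
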