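import Pool.Agent.helper44.EX.Spec

/-!
# Project ex:, second part: domains of small inradius

The final theorem `FI2_stmt` is `FIN_stmt` with `V ⊆ ball 0 r` replaced by: `V` contains no disc of radius `r`
(`V` may have large diameter), and the bounded gaps replaced by the uniform recurrence of the critical point.
Rules as in `Pool/Agent/helper44/EX/Spec.lean`.
-/

set_option autoImplicit false

open Complex Metric Set Filter Topology MeasureTheory Pool.Agent.helper98.ILF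

noncomputable section

namespace EX

/-- BA2 (medium): the visits before the time `T`. uses: MOB; V3.KO0, V3.KO1, V3.KO3 (proved).
PROOF. Let `C ≥ 1` be a common constant of KO1 and KO3 for `η = 1 - R` (`x ∈ ball a (R·1)`). For `a ∈ D` let `Φ = φ ∘ tau a` (injective on the disc, `Φ 0 = φ a`). KO1: `V ⊇ ball (φ a) (‖Φ' 0‖/C)`, so `‖Φ' 0‖ ≤ C r`; KO3: `‖Φ z - φ a‖ ≤ C ‖z‖ ‖Φ' 0‖ ≤ C² r` for `‖z‖ < R`. For `k < T` the derivative
`(f^k)'(x) = ∏_(j<k) n (f^j x)^(n-1) ≠ 0`, so there is `ε_k > 0` and a local inverse `χ_k` of `f^k` on `ball (f^k x) ε_k`, `χ_k (f^k x) = x`, holomorphic. Choose `r` with `C² r < ε_k` and `C² r < ‖f^k x‖` for all `k < T`. If `f^k x = φ a`: `G z = χ_k (Φ z)` on `ball 0 R`. If `‖a‖ ≤ R1 < R`, then (the case `a = 0` of the estimate)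
`‖φ a - φ 0‖ ≤ C² r < ‖f^k x‖`, contradiction. -/
def BA2_stmt : Prop := ∀ (n : ℕ) (c x : ℂ) (R1 R : ℝ) (T : ℕ), 1 ≤ n → 0 < R1 → R1 < R → R < 1 →
  (∀ k, (ff n c)^[k] x ≠ 0) → ∃ r > (0 : ℝ), ∀ φ : ℂ → ℂ, DifferentiableOn ℂ φ (ball 0 1) →
  InjOn φ (ball 0 1) → φ 0 = 0 → (∀ w : ℂ, ¬ ball w r ⊆ φ '' ball 0 1) →
  ∀ k < T, ∀ a ∈ ball (0 : ℂ) 1, (ff n c)^[k] x = φ a → R1 < ‖a‖ ∧
    ∃ G : ℂ → ℂ, DifferentiableOn ℂ G (ball 0 R) ∧ G 0 = x ∧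
      ∀ z ∈ ball (0 : ℂ) R, (ff n c)^[k] (G z) = φ (tau a z)

/-- IN2 (medium): the induction with a general start. uses: STP, NCL, LIF, MOB.
PROOF. As `IND_stmt` (strong induction on `k`; claim: if `f^k x = φ a`, then there is `G` on `ball 0 R`, `G 0 = x`, `f^k ∘ G = φ ∘ tau a`, and `R1 < ‖a‖`): for `k < T` this is the hypothesis; for `k ≥ T` the lift is constructed as in IND (at the earlier visit `k' = k-j-1` the induction hypothesis gives both `G'` and `R1 < ‖a'‖`), and NCL gives `R1 < ‖a‖`. -/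
def IN2_stmt : Prop := ∀ (n : ℕ) (c : ℂ) (δ : ℝ) (φ : ℂ → ℂ) (U : Set ℂ) (g R1 R R2 : ℝ) (x : ℂ)
  (T : ℕ), 2 ≤ n → VD n c δ φ U → PR n δ g R1 R R2 → Star n c x (R1 / R) T →
  (∀ k < T, ∀ a ∈ ball (0 : ℂ) 1, (ff n c)^[k] x = φ a → R1 < ‖a‖ ∧
    ∃ G : ℂ → ℂ, DifferentiableOn ℂ G (ball 0 R) ∧ G 0 = x ∧
      ∀ z ∈ ball (0 : ℂ) R, (ff n c)^[k] (G z) = φ (tau a z)) → (∀ k, (ff n c)^[k] x ≠ 0) →
  ∀ (k : ℕ) (a : ℂ), a ∈ ball (0 : ℂ) 1 → (ff n c)^[k] x = φ a → R1 < ‖a‖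

/-- FI2 (medium): THE THEOREM. uses: RTE, PAR, STR, IN2, BA2, REC, NZR.
PROOF. Replace `δ` by `max δ 0`. `g` from RTE, `R1, R, R2` from PAR. Let `μ` be an invariant line field; there is `x` with `μ x ≠ 0` (so `x ∈ J`), and the conclusions of STR, REC (with `V = ball 0 r`), NZR. `T` from STR for `q = R1/R < 1`, `r` from BA2, `φ, U` from the hypothesis for `r`. IN2: `R1 < ‖a‖` whenever `f^k x = φ a`.
`φ '' ball 0 R1` is a neighbourhood of `φ 0 = 0` (`V3.KO1` and `KO0`, or the open mapping theorem), so by REC some `f^k x = φ a` with `‖a‖ < R1`: contradiction. -/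
def FI2_stmt : Prop := ∀ (n : ℕ) (c : ℂ) (δ : ℝ), 3 ≤ n → δ < 1 →
  (∀ r > (0 : ℝ), ∃ N : ℕ, ∀ i : ℕ, ∃ s ∈ Finset.Icc 1 N, ‖(ff n c)^[i + s] 0‖ < r) →
  (∀ r > (0 : ℝ), ∃ (φ : ℂ → ℂ) (U : Set ℂ), VD n c δ φ U ∧ ∀ w : ℂ, ¬ ball w r ⊆ φ '' ball 0 1) →
  ¬ HasInvariantLineField (ff n c)

end EX
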